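import Pool.Agent.Helper16.FAM.Final
import Pool.Agent.Helper15.PotDense

/-!
# Symmetric powers of families of double covers of products of lines over a curve

Let `K` be a number field, `E / K` the function field of a geometrically irreducible variety
(`K` is algebraically closed in `E`), and `B` the function field of a curve over `K` contained in
`E`. Suppose that over the algebraic closure of `B` the generic fibre is dominated by a variety
`w_j ^ 2 = F_j(x_1, ..., x_n)` (`j = 1, ..., s`) with `F_j` of degree at most four in each variable
and no variable occurring in two different `F_j`. Then high symmetric powers of every variety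
dominated by the variety of `E` are potentially dense.
-/

namespace Pool.Agent.Helper2.Old.SymmetricPowersOfFamilies

open AlgebraicGeometry CategoryTheory Pool.Agent.Helper15 Pool.Agent.Helper16.SYM
  Pool.Agent.Helper16.FAM

universe u

theorem result (K : Type u) [Field K] [NumberField K] (E : Type u) [Field E] [Algebra K E]
    (hK : ∀ e : E, IsAlgebraic K e → e ∈ Set.range (algebraMap K E))
    (B : IntermediateField K E) (hB : Algebra.trdeg K B = 1) (hE : DoubleCoverType B)
    (A : Type u) [CommRing A] [Algebra K A] [Algebra.FiniteType K A] (f : A →ₐ[K] E)
    (hf : Function.Injective f) :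
    ∃ N₀ : ℕ, ∀ N ≥ N₀, ∀ (X : Scheme.{u}) (s : X ⟶ Spec (CommRingCat.of K)) [IrreducibleSpace X],
      BirationalOver K X (Spec (CommRingCat.of (symPow K A N))) s
        (Spec.map (CommRingCat.ofHom (algebraMap K (symPow K A N)))) →
      PotentiallyDense K X s := by
  obtain ⟨N₀, h⟩ := fam_main K E hK B hB hE A f hf
  refine ⟨N₀, fun N hN X s _ hX => ?_⟩
  obtain ⟨L, hL, hLK, hfin, hd⟩ := h N hN
  exact PotentiallyDense.of_birational K X _ s _ hX
    ⟨L, hL, hLK, hfin, dense_ratPts_spec K L (symPow K A N) hd⟩

end Pool.Agent.Helper2.Old.SymmetricPowersOfFamilies
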